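import Pool.Agent.W896.FD.Tri

/-!
# Triangle detection needs many reads or much memory

We consider Boolean circuits with AND gates of fan-in two, OR gates of any fan-in and negations at
the inputs, whose inputs are the bits of the adjacency matrix of a graph with `n` vertices. Such a
circuit accepts if and only if it has a proof tree all of whose leaves are true literals; the formal
degree in an input bit is the largest number of leaves with this bit, that is, the number of times
this bit is read. Nondeterministic, in particular deterministic, branching programs are such
circuits (the logarithm of the size is the memory, and a bit which is read at most `k` times on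
every path has degree at most `k`), and so are programs with a stack; a proof tree of a circuit may
even read any part of the input again and again in its branches.

The circuits have to recognise the triangle-free graphs. (The graphs with a triangle are recognised
by a disjunction of small conjunctions, which read each bit once.) Checking all triples is a circuit
of polynomial size and formal degree `n - 2` in each bit. We show that the size is `2 ^ Ω (n)` if the
formal degrees sum up to `O (n ^ 2)`. So algorithms of this kind with a memory of `o (n)` bits need a
time superlinear in the size `n ^ 2` of the input, and with a memory of `O (log n)` bits they need the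
time `Ω (n ^ 2 log n)`. The statement holds for each vertex separately: it is enough that the degrees
in the pairs at one vertex `u` sum up to at most `k n`, while the rest of the graph may be read as
often as one likes; and then it remains true for circuits with one-sided randomness, which find out
only with probability `2 ^ (- n / D)` that there is no triangle.

Proof. The proof trees are cut into few pieces in which only few of the pairs at `u` are read; a
random placement of a matching on the other vertices makes many pairs of the matching
monochromatic. The graph consists of this matching and of the edges at `u`; it is triangle-free if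
and only if `u` is adjacent to at most one vertex of each pair.
-/

set_option autoImplicit false

namespace Pool.Agent.Results.MP_ad5e8e_lc.FormalDegree

open Pool.Agent.W896.RK Pool.Agent.W896.FD Pool.Agent.W896.FD.Tri

/-- `bits G` is the list of the bits of the adjacency matrix of `G`, indexed by the unordered pairs.

1. Let `u` be a vertex and `U r` (`r` in a finite nonempty set) circuits none of which accepts a
graph with a triangle, such that every triangle-free graph is accepted by at least a
`2 ^ (- ⌊n / 2 ^ (60 (k + 3))⌋)` fraction of them. If in each `U r` the formal degrees in the pairs
`{u, v}` sum up to at most `k n`, then some `U r` has `g` gates with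
`n ≤ 2 ^ (60 (k + 3)) (⌊log₂ g⌋ + 1)`.

2. If a circuit accepts exactly the triangle-free graphs, and its formal degrees sum up to at most
`k n ^ 2`, then it has `g` gates with `n ≤ 2 ^ (60 (2 k + 3)) (⌊log₂ g⌋ + 1)`. -/
theorem result (k n : ℕ) :
    (∀ (u : Fin n) (R : Type) [Fintype R] [Nonempty R] (U : R → Circ (Sym2 (Fin n))),
      (∀ r G, (U r).Val (bits G) (U r).out → G.CliqueFree 3) →
      (∀ G : SimpleGraph (Fin n), G.CliqueFree 3 →
        Nat.card R ≤ 2 ^ (n / 2 ^ (60 * (k + 3))) * Nat.card {r // (U r).Val (bits G) (U r).out}) →
      (∀ r, ∃ d : (U r).G → Sym2 (Fin n) → ℕ, IsDeg (U r) id d ∧
        ∑ v, d (U r).out s(u, v) ≤ k * n) →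
      ∃ r, n ≤ 2 ^ (60 * (k + 3)) * (Nat.log 2 (Fintype.card (U r).G) + 1)) ∧
    ∀ U : Circ (Sym2 (Fin n)), (∀ G, U.Val (bits G) U.out ↔ G.CliqueFree 3) →
      (∃ d : U.G → Sym2 (Fin n) → ℕ, IsDeg U id d ∧ ∑ e, d U.out e ≤ k * n ^ 2) →
      n ≤ 2 ^ (60 * (2 * k + 3)) * (Nat.log 2 (Fintype.card U.G) + 1) :=
  ⟨fun u _ _ _ U hU hc hd => tri_vertex k n u _ U hU hc hd,
    fun U hU hd => tri_total k n U hU hd⟩

end Pool.Agent.Results.MP_ad5e8e_lc.FormalDegree
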