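import Mathlib
import Pool.Agent.TH272.Shr.TriHeavy

/-!
# Triangle detection: circuits in which shared gates depend on few edges

The input is a list of the `m` edges of a simple graph on `2 m` vertices; the question is whether the
graph has a triangle.

A circuit over the full binary basis is written as a sequence of formulas, one for each gate whose
value is used more than once (a shared gate) and one for the output. The leaves are arbitrary
predicates of one entry of the list (part 1), or of `w` entries (part 2). There may be any number of
shared gates and references to them. A shared gate is heavy (for `d`) if it depends, directly or by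
other shared gates, on more than `d` entries of the list.

* For random circuits with error probability at most `1 / 3` and one entry in each leaf, and for all
  `d`: `m ^ 2 log₂ m ≤ 229 (leaves + d (references + shared gates) + m (references to heavy gates +
  heavy gates))` (expected numbers). So the size is at least of order `m ^ 2 log m / d` without heavy
  gates, and circuits with `leaves + d (references + shared gates) ≤ m ^ 2 log₂ m / 458` have at least
  `m log₂ m / 458` heavy gates and references to them.
* If a leaf may see `w` entries,
  `m ^ 2 log₂ m ≤ 150 w ^ 2 log₂ m leaves + 229 (…)` with the same `…`.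

Proof. By the coding of helper457 (`Pool.Agent.TH457.Ary.Tri`) each entry of the list can ask for about
`m log₂ m / 4` bits which are encoded in the other entries. If the other entries are fixed, the
circuit has at most `2 ^ (1 + s) 16 ^ r (16 q ^ (w - 1)) ^ l` subfunctions, where `s` is the number
of shared gates that depend on the entry, `r` is the number of references to them, and `l` is the
number of leaves that see the entry; the references to the other shared gates are constants. A
shared gate that is not heavy is counted for at most `d` entries, a heavy one for at most `m`.
-/

set_option autoImplicit false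

namespace Pool.Agent.Results.MP_ad5e8e_lc.LocalSharing

open Pool.Agent.TH697.Form (IsProb)
open Pool.Agent.TH697.Row (ApproximatesOn)
open Pool.Agent.TH457.Ary.Tri (Edge Simple triangle)
open Pool.Agent.TH272.Shr (Circuit mean)

theorem result : ∀ m d : ℕ, 400 ≤ m → ∀ (Ω : Type) [Fintype Ω] (μ : Ω → ℝ), IsProb μ →
    (∀ C : Ω → Circuit (Fin m) (fun _ => Edge (2 * m)) 1 2,
      ApproximatesOn μ (fun ω => (C ω).eval) Simple triangle →
      (m : ℝ) ^ 2 * Nat.log 2 m ≤ 229 * (mean μ (fun ω => (C ω).leaves) +
        d * (mean μ (fun ω => (C ω).refs) + mean μ (fun ω => (C ω).shared)) +
        m * (mean μ (fun ω => (C ω).heavyRefs Finset.univ d) +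
          mean μ (fun ω => (C ω).heavyGates Finset.univ d)))) ∧
    (∀ w : ℕ, 1 ≤ w → ∀ C : Ω → Circuit (Fin m) (fun _ => Edge (2 * m)) w (4 * m ^ 2),
      ApproximatesOn μ (fun ω => (C ω).eval) Simple triangle →
      (m : ℝ) ^ 2 * Nat.log 2 m ≤
        150 * w ^ 2 * Nat.log 2 m * mean μ (fun ω => (C ω).leaves) +
          229 * (d * (mean μ (fun ω => (C ω).refs) + mean μ (fun ω => (C ω).shared)) +
            m * (mean μ (fun ω => (C ω).heavyRefs Finset.univ d) +
              mean μ (fun ω => (C ω).heavyGates Finset.univ d)))) :=
  fun _ d hm _ _ μ hμ =>
    ⟨fun C hC => Pool.Agent.TH272.Shr.Tri.single_heavy hm μ hμ C hC d,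
      fun _ hw C hC => Pool.Agent.TH272.Shr.Tri.main_heavy hm hw μ hμ C hC d⟩

end Pool.Agent.Results.MP_ad5e8e_lc.LocalSharing
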