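import Mathlib
import Pool.Agent.TH697.Tri.Final

/-!
# Formulas and branching programs for triangles in sparse graphs with predicates of one row

The input is a graph with vertices `0, …, n - 1`, given by the rows of the upper half of its
adjacency matrix: item `i` consists of the bits `x i j`, `i < j` (see
`Pool/Agent/TH697/Row/GraphDefs.lean`). We consider

* formulas whose leaves are arbitrary predicates of one row and whose gates are arbitrary functions
  of two bits (`Pool/Agent/TH697/Form/Defs.lean`),
* branching programs whose nodes test arbitrary predicates of one row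
  (`Pool/Agent/TH697/Row/Defs.lean`),

which may be chosen at random, and which have to decide with error probability at most `1 / 3`
whether the graph has a triangle, on all graphs with at most `E ≤ n ^ 2 / 9` edges; nothing is
required for the other graphs. The formulas need `E ^ (3 / 2) / 60` leaves on average, the branching
programs `E ^ (3 / 2) / (100 log₂ E)` nodes. For `E = n ^ 2 / 9` the bound for formulas is
tight up to a constant factor, also for formulas without errors which are correct for all graphs.

Proof. Let `k = ⌊√(E - 2)⌋`, and let `i < k` be a vertex. Take two disjoint sets of `k` vertices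
larger than `i` and the bipartite graph between them which is given by a `k × k` matrix `z` of bits.
If `i` is connected to one vertex of both sets, then there is a triangle iff the entry of `z` is
`1`. So all entries of `z` can be read off with the item `i`. A formula with `r` leaves for row `i`
has at most `2 * 16 ^ r` subfunctions in row `i`, a branching program with `s` nodes, `r` of them for
row `i`, at most `(s + 2) ^ (2 r + 1)`. A coding argument shows that `r = Ω(k ^ 2)` on average for
formulas, and `r = Ω(k ^ 2 / log s)` for branching programs, also if errors are allowed.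
-/

set_option autoImplicit false

namespace Pool.Agent.Results.MP_ad5e8e_lc.RowPredicates

open Pool.Agent.TH697.Form Pool.Agent.TH697.Row Pool.Agent.TH697.Tri

theorem result :
    (∀ n E : ℕ, 2500 ≤ E → 9 * E ≤ n ^ 2 → ∀ (Ω : Type) [Fintype Ω] (μ : Ω → ℝ), IsProb μ →
      ∀ F : Ω → Fml (Fin n) (fun _ => Fin n → Bool),
        ApproximatesOn μ (fun ω => (F ω).eval) (fun x => edges x ≤ E) tri →
        (E : ℝ) ^ (3 / 2 : ℝ) / 60 ≤ expSize μ F) ∧
    (∀ n E : ℕ, 10000 ≤ E → 9 * E ≤ n ^ 2 → ∀ (Ω : Type) [Fintype Ω] (μ : Ω → ℝ), IsProb μ →
      ∀ (s : ℕ) (B : Ω → Program (Fin n) (fun _ => Fin n → Bool) s),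
        ApproximatesOn μ (fun ω => (B ω).eval) (fun x => edges x ≤ E) tri →
        (E : ℝ) ^ (3 / 2 : ℝ) / (100 * Real.logb 2 E) ≤ s) ∧
    (∀ n : ℕ, 3 ≤ n → ∃ G : Fml (Fin n) (fun _ => Fin n → Bool),
      (∀ x, G.eval x = tri x) ∧ G.size ≤ 2 * n ^ 3) :=
  ⟨fun _ _ hE hn _ _ μ hμ F hF => formula_bound hE hn μ hμ F hF,
   fun _ _ hE hn _ _ μ hμ _ B hB => program_bound hE hn μ hμ B hB,
   fun _ hn => upper hn⟩

end Pool.Agent.Results.MP_ad5e8e_lc.RowPredicates
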