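import Mathlib
import Pool.Agent.TH457.Ary.Tri

/-!
# Triangle detection: tests of several edges

The input is the list of the `m` edges of a simple graph with `2 m` vertices. A test sees up to `w`
entries of the list, each of them through an arbitrary function with `4 m ^ 2` values; as there are
fewer edges, these are the arbitrary predicates of `w` entries. We show that random formulas over
such tests (with arbitrary functions of two bits as gates) and random branching programs over such
tests need `m ^ 2 / (320 w ^ 2)` leaves and `m ^ 2 / (900 w ^ 2)` nodes, if they detect triangles with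
error probability at most `1 / 3`. So these bounds are superlinear in the size of the graph, also for
sparse graphs and even if each test sees many edges, `w = o(√m)`.

Proof. Let `2 ^ k` be about `√m`. There are vertices `s_i`, `y_v` for `v < 2 ^ k` and `b_j` for
`j < k`. There are edges `y_v b_j` if the `j`-th bit of `v` is one, and data edges `s_i y_(v_i)`. One
entry of the list can ask for the `j`-th bit of `v_i` by the edge `s_i b_j`. So it can ask for about
`m k` bits of the other entries. If a formula has `r` leaves which see the entry, then only
`2 (16 q ^ (w - 1)) ^ r`, `q = 4 m ^ 2`, functions of it arise when the others are fixed.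
-/

set_option autoImplicit false

namespace Pool.Agent.Results.MP_ad5e8e_lc.SeveralEdges

open Pool.Agent.TH697.Form (IsProb)
open Pool.Agent.TH697.Row (ApproximatesOn)
open Pool.Agent.TH457.Ary Pool.Agent.TH457.Ary.Tri

theorem result : ∀ m w : ℕ, 400 ≤ m → 1 ≤ w →
    ∀ (Ω : Type) [Fintype Ω] (μ : Ω → ℝ), IsProb μ →
      (∀ F : Ω → Fml (Fin m) (fun _ => Edge (2 * m)) w (4 * m ^ 2),
        ApproximatesOn μ (fun ω => (F ω).eval) Simple triangle →
        (m : ℝ) ^ 2 ≤ 320 * w ^ 2 * expSize μ F) ∧
      (∀ (s : ℕ) (B : Ω → Program (Fin m) (fun _ => Edge (2 * m)) w (4 * m ^ 2) s),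
        ApproximatesOn μ (fun ω => (B ω).eval) Simple triangle →
        (m : ℝ) ^ 2 ≤ 900 * w ^ 2 * s) :=
  fun _ _ hm hw _ _ μ hμ => ⟨fun F hF => formula_bound hm hw μ hμ F hF,
    fun s B hB => program_bound hm hw μ hμ s B hB⟩

end Pool.Agent.Results.MP_ad5e8e_lc.SeveralEdges
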